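import Pool.Agent.Helper743.Lim

/-!
# Every `Δ⁰₂`-automorphism of the lattice of c.e. sets is a `Δ⁰₁`-automorphism

The definitions follow the problem file: `CE` is the lattice of computably enumerable sets ordered
by inclusion, `W` is the standard enumeration, a presentation of an automorphism `Φ` is a function
`f` with `Φ(W_e) =* W_{f(e)}` for all `e`, and a function is `Δ⁰_n` when it is computable from
the `(n-1)`-st jump of the empty set.
-/

set_option autoImplicit false

namespace Pool.Agent.Results.MP_f19e53_lc.LevelTwoCollapses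

open Nat.Partrec (Code)

/-- the lattice of computably enumerable subsets of `ℕ`, ordered by inclusion -/
def CE : Type := {S : Set ℕ // REPred fun n => n ∈ S}

instance : PartialOrder CE := inferInstanceAs (PartialOrder {S : Set ℕ // REPred fun n => n ∈ S})

/-- the underlying set of `W e`: the domain of the `e`-th partial computable function -/
def dom (e : ℕ) : Set ℕ := {n | (Code.eval (Denumerable.ofNat Code e) n).Dom}

theorem dom_re (e : ℕ) : REPred fun n => n ∈ dom e :=
  (Code.eval_part.comp (Computable.const (Denumerable.ofNat Code e)) Computable.id).dom_re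

/-- the standard enumeration of the computably enumerable sets -/
def W (e : ℕ) : CE := ⟨dom e, dom_re e⟩

/-- equality up to finitely many elements -/
def EqStar (X Y : CE) : Prop := (symmDiff X.1 Y.1).Finite

/-- `f` is a presentation of the automorphism `Φ`: `Φ(W_e) =* W_{f(e)}` for all `e` -/
def IsPresentation (Φ : CE ≃o CE) (f : ℕ → ℕ) : Prop := ∀ e, EqStar (Φ (W e)) (W (f e))

/-- the characteristic function of the halting problem `∅'` -/
noncomputable def zeroJump (z : ℕ) : ℕ :=
  open Classical in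
  if (Code.eval (Denumerable.ofNat Code z.unpair.1) z.unpair.2).Dom then 1 else 0

/-- `f` is a `Δ⁰₁` function: computable -/
def IsDelta1 (f : ℕ → ℕ) : Prop := Computable f

/-- `f` is a `Δ⁰₂` function: computable from the halting problem -/
def IsDelta2 (f : ℕ → ℕ) : Prop := TuringReducible (f : ℕ →. ℕ) (zeroJump : ℕ →. ℕ)

/-- `Φ` is a `Δ`-automorphism for a class `Δ` of functions -/
def IsAutomorphismOf (Δ : (ℕ → ℕ) → Prop) (Φ : CE ≃o CE) : Prop :=
  ∃ f, Δ f ∧ IsPresentation Φ f

/-- `A` and `B` are `Δ`-automorphic for a class `Δ` of functions -/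
def Automorphic (Δ : (ℕ → ℕ) → Prop) (A B : CE) : Prop :=
  ∃ Φ : CE ≃o CE, IsAutomorphismOf Δ Φ ∧ Φ A = B

/-- stage `s` of the set with index `e` -/
def stg (e n s : ℕ) : Bool := (Code.evaln s (Denumerable.ofNat Code e) n).isSome

theorem mem_dom_iff (e n : ℕ) : n ∈ dom e ↔ ∃ s, stg e n s = true := by
  unfold dom stg
  rw [Set.mem_ofPred_eq, Part.dom_iff_mem]
  constructor
  · rintro ⟨y, hy⟩
    obtain ⟨s, hs⟩ := Code.evaln_complete.1 hy
    exact ⟨s, by rw [Option.mem_def.1 hs]; rfl⟩
  · rintro ⟨s, hs⟩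
    obtain ⟨y, hy⟩ := Option.isSome_iff_exists.1 hs
    exact ⟨y, Code.evaln_sound (Option.mem_def.2 hy)⟩

theorem stg_mono {e n s t : ℕ} (h : s ≤ t) (hs : stg e n s = true) : stg e n t = true := by
  unfold stg at *
  obtain ⟨y, hy⟩ := Option.isSome_iff_exists.1 hs
  have := Code.evaln_mono h (Option.mem_def.2 hy)
  rw [Option.mem_def.1 this]
  rfl

theorem stg_bound {e n s : ℕ} (hs : stg e n s = true) : n < s := by
  unfold stg at hs
  obtain ⟨y, hy⟩ := Option.isSome_iff_exists.1 hs
  exact Code.evaln_bound (Option.mem_def.2 hy)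

theorem stg_computable : Computable fun q : (ℕ × ℕ) × ℕ => stg q.1.1 q.1.2 q.2 := by
  have h1 : Primrec fun q : (ℕ × ℕ) × ℕ =>
      Code.evaln q.2 (Denumerable.ofNat Code q.1.1) q.1.2 :=
    Code.primrec_evaln.comp ((Primrec.snd.pair ((Primrec.ofNat Code).comp
      (Primrec.fst.comp Primrec.fst))).pair (Primrec.snd.comp Primrec.fst))
  exact (Primrec.option_isSome.comp h1).to_comp

/-- the union of the stages of a computable approximation to an index -/
theorem exists_union {g : ℕ → ℕ → ℕ} (hg : Computable₂ g) :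
    ∃ h : ℕ → ℕ, Computable h ∧ ∀ e, dom (h e) = {n | ∃ s, stg (g e s) n s = true} := by
  have h1 : Computable fun q : (ℕ × ℕ) × ℕ => stg (g q.1.1 q.2) q.1.2 q.2 := by
    have a1 : Computable fun q : (ℕ × ℕ) × ℕ => g q.1.1 q.2 :=
      hg.comp (Computable.fst.comp Computable.fst) Computable.snd
    have a2 : Computable fun q : (ℕ × ℕ) × ℕ => ((g q.1.1 q.2, q.1.2), q.2) :=
      (a1.pair (Computable.snd.comp Computable.fst)).pair Computable.snd
    exact Computable.comp (g := fun q : (ℕ × ℕ) × ℕ => ((g q.1.1 q.2, q.1.2), q.2))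
      stg_computable a2
  have h1' : Computable₂ fun (p : ℕ × ℕ) (s : ℕ) => stg (g p.1 s) p.2 s := h1
  have h2 : Partrec fun p : ℕ × ℕ => Nat.rfind fun s => Part.some (stg (g p.1 s) p.2 s) :=
    Partrec.rfind h1'.partrec₂
  have h3 : Partrec fun p : ℕ =>
      Nat.rfind fun s => Part.some (stg (g p.unpair.1 s) p.unpair.2 s) :=
    h2.comp Computable.unpair
  obtain ⟨c, hc⟩ := Code.exists_code.1 (Partrec.nat_iff.1 h3)
  refine ⟨fun e => Encodable.encode (Code.curry c e), ?_, fun e => ?_⟩
  · exact Computable.encode.comp (Code.primrec₂_curry.to_comp.comp (Computable.const c)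
      Computable.id)
  · ext n
    unfold dom
    rw [Set.mem_ofPred_eq, Denumerable.ofNat_encode, Code.eval_curry, hc]
    refine Iff.trans (Nat.rfind_dom (p := fun s => (Part.some
      (stg (g (Nat.unpair (Nat.pair e n)).1 s) (Nat.unpair (Nat.pair e n)).2 s) : Part Bool))) ?_
    simp only [Nat.unpair_pair, Set.mem_ofPred_eq]
    constructor
    · rintro ⟨s, hs, _⟩
      exact ⟨s, (Part.mem_some_iff.1 hs).symm⟩
    · rintro ⟨s, hs⟩
      exact ⟨s, Part.mem_some_iff.2 hs.symm, fun _ => trivial⟩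

/-- every `∅'`-computable function of indices is, modulo finite sets, computable -/
theorem exists_computable {f : ℕ → ℕ} (hf : IsDelta2 f) :
    ∃ h : ℕ → ℕ, Computable h ∧ ∀ e, (symmDiff (dom (f e)) (dom (h e))).Finite := by
  have h1 : Helper743.TR f Helper743.K := Helper743.TR_iff.2 hf
  obtain ⟨g, hg, hlim⟩ := Helper743.LimC.of_TR_K h1
  obtain ⟨h, hh, hdom⟩ := exists_union hg
  refine ⟨h, hh, fun e => ?_⟩
  obtain ⟨s0, hs0⟩ := hlim e
  refine Set.Finite.subset (Set.finite_lt_nat s0) ?_
  intro n hn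
  rw [Set.mem_symmDiff, hdom e, Set.mem_ofPred_eq] at hn
  rcases hn with ⟨h2, h3⟩ | ⟨⟨s, hs⟩, h3⟩
  · exfalso
    apply h3
    obtain ⟨s, hs⟩ := (mem_dom_iff _ _).1 h2
    refine ⟨max s s0, ?_⟩
    rw [hs0 _ (le_max_right _ _)]
    exact stg_mono (le_max_left _ _) hs
  · show n < s0
    by_contra hcon
    push Not at hcon
    have h4 : s0 ≤ s := hcon.trans (stg_bound hs).le
    apply h3
    rw [hs0 s h4] at hs
    exact (mem_dom_iff _ _).2 ⟨s, hs⟩

/-- Every `Δ⁰₂`-automorphism of the lattice of c.e. sets is a `Δ⁰₁`-automorphism. -/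
theorem automorphism_collapse (Φ : CE ≃o CE) (hΦ : IsAutomorphismOf IsDelta2 Φ) :
    IsAutomorphismOf IsDelta1 Φ := by
  obtain ⟨f, hf, hp⟩ := hΦ
  obtain ⟨h, hh, hfin⟩ := exists_computable hf
  refine ⟨h, hh, fun e => ?_⟩
  have h1 := hp e
  unfold EqStar at *
  refine Set.Finite.subset (h1.union (hfin e)) ?_
  exact symmDiff_triangle _ _ _

/-- The assertion of Q1 fails at `α = 2`: any two c.e. sets that are `Δ⁰₂`-automorphic are
already `Δ⁰₁`-automorphic, so there are no c.e. sets `A, B` that are `Δ⁰₂`-automorphic but not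
`Δ⁰_β`-automorphic for all `β` with `1 ≤ β < 2`. -/
theorem result :
    (∀ A B : CE, Automorphic IsDelta2 A B → Automorphic IsDelta1 A B) ∧
      ¬ ∃ A B : CE, Automorphic IsDelta2 A B ∧ ¬ Automorphic IsDelta1 A B := by
  have h : ∀ A B : CE, Automorphic IsDelta2 A B → Automorphic IsDelta1 A B := by
    rintro A B ⟨Φ, hΦ, hAB⟩
    exact ⟨Φ, automorphism_collapse Φ hΦ, hAB⟩
  exact ⟨h, fun ⟨A, B, h1, h2⟩ => h2 (h A B h1)⟩

end Pool.Agent.Results.MP_f19e53_lc.LevelTwoCollapses
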